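import Pool.Agent.V7H47.LB.Spec

/-!
# Lower bound for convex translation covers: the numeric piece NR
-/

set_option autoImplicit false

open Real Set

namespace Pool.Agent.V7H96.LB

open Pool.Agent.V7H47.LB

lemma u_cos_le_sin {u : ℝ} (h0 : 0 ≤ u) (h1 : u < π / 2) : u * cos u ≤ sin u := by
  rcases h0.eq_or_lt with h | h
  · rw [← h]; simp
  · have h2 := Real.lt_tan h h1
    have hc : 0 < cos u := cos_pos_of_mem_Ioo ⟨by linarith, h1⟩
    rw [tan_eq_sin_div_cos, lt_div_iff₀ hc] at h2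
    exact h2.le

/-- convexity of the tangent -/
lemma tan_convex {θ γ : ℝ} (h0 : 0 ≤ θ) (h1 : θ ≤ γ) (h2 : γ < π / 2) :
    (γ - θ) / cos θ ^ 2 ≤ tan γ - tan θ := by
  have hc : 0 < cos θ := cos_pos_of_mem_Ioo ⟨by linarith, by linarith⟩
  have hc' : 0 < cos γ := cos_pos_of_mem_Ioo ⟨by linarith, by linarith⟩
  have hs : 0 ≤ sin θ := sin_nonneg_of_nonneg_of_le_pi h0 (by linarith)
  have hsu : 0 ≤ sin (γ - θ) := sin_nonneg_of_nonneg_of_le_pi (by linarith) (by linarith)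
  have e : tan γ - tan θ = sin (γ - θ) / (cos γ * cos θ) := by
    rw [tan_eq_sin_div_cos, tan_eq_sin_div_cos, sin_sub]
    field_simp
  have e2 : cos γ = cos θ * cos (γ - θ) - sin θ * sin (γ - θ) := by
    rw [← cos_add]; congr 1; ring
  have h3 := u_cos_le_sin (u := γ - θ) (by linarith) (by linarith)
  rw [e, div_le_div_iff₀ (by positivity) (by positivity)]
  have h4 : (γ - θ) * cos γ ≤ sin (γ - θ) * cos θ := by
    rw [e2]
    have h5 : 0 ≤ (γ - θ) * (sin θ * sin (γ - θ)) :=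
      mul_nonneg (by linarith) (mul_nonneg hs hsu)
    have h6 := mul_le_mul_of_nonneg_right h3 hc.le
    nlinarith
  nlinarith

lemma sec_tan {θ γ : ℝ} (h0 : 0 ≤ θ) (h1 : θ ≤ γ) (h2 : γ < π / 2) :
    1 / cos γ - 1 / cos θ ≤ tan γ - tan θ := by
  have hc : 0 < cos θ := cos_pos_of_mem_Ioo ⟨by linarith, by linarith⟩
  have hc' : 0 < cos γ := cos_pos_of_mem_Ioo ⟨by linarith, by linarith⟩
  have hB : 0 ≤ sin ((γ - θ) / 2) := sin_nonneg_of_nonneg_of_le_pi (by linarith) (by linarith)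
  have h3 : sin ((γ + θ) / 2) ≤ cos ((γ - θ) / 2) := by
    rw [← cos_pi_div_two_sub]
    exact cos_le_cos_of_nonneg_of_le_pi (by linarith) (by linarith) (by linarith)
  have e1 : cos θ - cos γ = 2 * sin ((γ + θ) / 2) * sin ((γ - θ) / 2) := by
    have a1 : cos θ = cos ((γ + θ) / 2 - (γ - θ) / 2) := by congr 1; ring
    have a2 : cos γ = cos ((γ + θ) / 2 + (γ - θ) / 2) := by congr 1; ring
    rw [a1, a2, cos_sub, cos_add]; ring
  have e2 : sin (γ - θ) = 2 * sin ((γ - θ) / 2) * cos ((γ - θ) / 2) := by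
    rw [← sin_two_mul]; congr 1; ring
  have h4 : cos θ - cos γ ≤ sin (γ - θ) := by
    rw [e1, e2]
    nlinarith
  have e3 : tan γ - tan θ = sin (γ - θ) / (cos γ * cos θ) := by
    rw [tan_eq_sin_div_cos, tan_eq_sin_div_cos, sin_sub]
    field_simp
  have e4 : 1 / cos γ - 1 / cos θ = (cos θ - cos γ) / (cos γ * cos θ) := by
    field_simp
  rw [e3, e4]
  exact div_le_div_of_nonneg_right h4 (by positivity)

lemma sec_mono {θ γ : ℝ} (h0 : 0 ≤ θ) (h1 : θ ≤ γ) (h2 : γ < π / 2) :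
    0 ≤ 1 / cos γ - 1 / cos θ := by
  have hc' : 0 < cos γ := cos_pos_of_mem_Ioo ⟨by linarith, by linarith⟩
  have h3 : cos γ ≤ cos θ := cos_le_cos_of_nonneg_of_le_pi h0 (by linarith [pi_pos]) h1
  have := one_div_le_one_div_of_le hc' h3
  linarith

/-- the part in `δ = η - η₀` -/
lemma delta {M L δ : ℝ} (hM : 0.0135 ≤ M) (hL0 : 0 ≤ L) (hL : L ≤ 0.0447) (h1 : δ ≤ 0.44) :
    L * (δ - sin δ) ≤ M * (1 - cos δ) := by
  rcases le_or_gt δ 0 with h | h
  · have h2 : δ ≤ sin δ := by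
      rcases h.eq_or_lt with h3 | h3
      · rw [h3]; simp
      · have := Real.sin_lt (neg_pos.2 h3)
        rw [sin_neg] at this
        linarith
    have h4 : L * (δ - sin δ) ≤ 0 := mul_nonpos_of_nonneg_of_nonpos hL0 (by linarith)
    have h5 : 0 ≤ M * (1 - cos δ) := mul_nonneg (by linarith) (by linarith [cos_le_one δ])
    linarith
  · have ha : |δ| = δ := abs_of_pos h
    have hb1 := Real.cos_bound (x := δ) (by rw [ha]; linarith)
    have hb2 := Real.sin_bound (x := δ) (by rw [ha]; linarith)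
    rw [ha, abs_le] at hb1 hb2
    have c1 : δ ^ 2 / 2 - δ ^ 4 * (5 / 96) ≤ 1 - cos δ := by linarith [hb1.2]
    have c2 : δ - sin δ ≤ δ ^ 3 / 6 + δ ^ 5 / 100 := by linarith [hb2.1]
    have c3 : L * (δ - sin δ) ≤ 0.0447 * (δ ^ 3 / 6 + δ ^ 5 / 100) := by
      have q1 := mul_le_mul_of_nonneg_left c2 hL0
      have q2 : 0 ≤ δ ^ 3 / 6 + δ ^ 5 / 100 := by positivity
      have q3 := mul_le_mul_of_nonneg_right hL q2
      linarith
    have c4 : 0.0135 * (δ ^ 2 / 2 - δ ^ 4 * (5 / 96)) ≤ M * (1 - cos δ) := by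
      have q2 : 0 ≤ δ ^ 2 / 2 - δ ^ 4 * (5 / 96) := by nlinarith [sq_nonneg δ, sq_nonneg (δ ^ 2)]
      have q1 := mul_le_mul hM c1 q2 (by linarith)
      linarith
    have c5 : 0.0447 * (δ ^ 3 / 6 + δ ^ 5 / 100) ≤
        0.0135 * (δ ^ 2 / 2 - δ ^ 4 * (5 / 96)) := by
      have q : 0 ≤ δ ^ 2 * (0.0135 * (1 / 2 - δ ^ 2 * (5 / 96)) -
          0.0447 * (δ / 6 + δ ^ 3 / 100)) := by
        apply mul_nonneg (sq_nonneg _)
        have z1 : δ ^ 2 ≤ 0.2 := by nlinarith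
        have z2 : δ ^ 3 ≤ 0.1 := by
          have : δ ^ 3 = δ * δ ^ 2 := by ring
          nlinarith
        nlinarith
      nlinarith
    linarith

/-- the final one-variable inequality -/
lemma final {c s w : ℝ} (hc1 : 0.63185 ≤ c) (hc2 : c ≤ 2 / 3) (hs : 0 ≤ s)
    (hsc : s ^ 2 = 1 - c ^ 2) (hw1 : 1.73205 ≤ w) (hw2 : w ≤ 1.73206) :
    0.1824 * (1 + c) ^ 2 + 0.666 * c * (1 + c) ≤
      s * (3 * c - 0.222 * w * (1 + c) - 1.5 * c ^ 2) + 1.5 * w * c ^ 3 := by
  have h1 : 0.77505 - 0.856 * (c - 0.63185) ≤ s := by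
    apply le_of_sq_le_sq _ hs
    rw [hsc]
    nlinarith
  have h2 : 0 ≤ 3 * c - 0.222 * 1.73206 * (1 + c) - 1.5 * c ^ 2 := by nlinarith
  have h3 : 3 * c - 0.222 * 1.73206 * (1 + c) - 1.5 * c ^ 2 ≤
      3 * c - 0.222 * w * (1 + c) - 1.5 * c ^ 2 := by nlinarith
  have h4 : (0.77505 - 0.856 * (c - 0.63185)) *
      (3 * c - 0.222 * 1.73206 * (1 + c) - 1.5 * c ^ 2) ≤
      s * (3 * c - 0.222 * w * (1 + c) - 1.5 * c ^ 2) :=
    mul_le_mul h1 h3 h2 hs
  have h5 : 1.5 * 1.73205 * c ^ 3 ≤ 1.5 * w * c ^ 3 := by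
    have : 0 ≤ c ^ 3 := by positivity
    nlinarith
  have h6 : 0.1824 * (1 + c) ^ 2 + 0.666 * c * (1 + c) ≤
      (0.77505 - 0.856 * (c - 0.63185)) *
      (3 * c - 0.222 * 1.73206 * (1 + c) - 1.5 * c ^ 2) + 1.5 * 1.73205 * c ^ 3 := by
    nlinarith [mul_nonneg (sub_nonneg.2 hc1) (sub_nonneg.2 hc2),
      mul_nonneg (mul_nonneg (sub_nonneg.2 hc1) (sub_nonneg.2 hc2)) (sub_nonneg.2 hc1),
      mul_nonneg (mul_nonneg (sub_nonneg.2 hc1) (sub_nonneg.2 hc2)) (sub_nonneg.2 hc2)]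
  linarith

theorem t_NR : S_NR := by
  intro r γ₁ γ₂ γ₃ η₁ η₂ η₃ hr1 hr2 hA
  obtain ⟨a1, a1', a2, a2', a3, a3', b1, b2, b3, hsum, k1, k2, k3⟩ := hA
  have hpi := pi_pos
  have hr : 0 < r := by linarith
  have hq : 0 < 1 / 2 - r := by linarith
  set c := r / (1 / 2 - r) with hc
  have hc1 : 0.63185 ≤ c := by rw [hc, le_div_iff₀ hq]; linarith
  have hc2 : c ≤ 2 / 3 := by rw [hc, div_le_iff₀ hq]; linarith
  have hcr : r * (2 * (1 + c)) = c := by
    have : c * (1 / 2 - r) = r := div_mul_cancel₀ _ hq.ne'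
    linarith
  have hcr' : r = c / (2 * (1 + c)) := by
    rw [eq_div_iff (by positivity)]; exact hcr
  set s := √(1 - c ^ 2) with hs
  have hs0 : 0 ≤ s := sqrt_nonneg _
  have hsc : s ^ 2 = 1 - c ^ 2 := sq_sqrt (by nlinarith)
  set w := √(3 : ℝ) with hw
  have hw1 : 1.73205 ≤ w := by
    rw [hw]; apply le_sqrt_of_sq_le; norm_num
  have hw2 : w ≤ 1.73206 := by
    rw [hw]; apply sqrt_le_iff.2; norm_num
  have hfin := final hc1 hc2 hs0 hsc hw1 hw2
  set θ := arccos c with hθ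
  have cθ : cos θ = c := cos_arccos (by linarith) (by linarith)
  have sθ : sin θ = s := sin_arccos c
  have hθ0 : 0 ≤ θ := arccos_nonneg c
  have hθ1 : θ < π / 2 := arccos_lt_pi_div_two.2 (by linarith)
  have tθ : tan θ = s / c := by rw [tan_eq_sin_div_cos, cθ, sθ]
  have hc0 : 0 < c := by linarith
  -- `θ ≤ γᵢ`
  have geθ : ∀ γ : ℝ, 0 < γ → γ < π / 2 → (1 / 2 - r) * cos γ ≤ r → θ ≤ γ := by
    intro γ h1 h2 h3
    have h4 : cos γ ≤ c := by
      rw [hc, le_div_iff₀ hq]; linarith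
    by_contra h
    have h5 : cos θ < cos γ := cos_lt_cos_of_nonneg_of_le_pi h1.le (by linarith) (not_le.1 h)
    linarith
  have g1 := geθ γ₁ a1 a1' k1
  have g2 := geθ γ₂ a2 a2' k2
  have g3 := geθ γ₃ a3 a3' k3
  -- the angle `η₀`
  set e := π / 3 - θ with he
  have ce : cos e = c / 2 + w / 2 * s := by
    rw [he, cos_sub, cos_pi_div_three, sin_pi_div_three, cθ, sθ]; ring
  have se : sin e = w / 2 * c - s / 2 := by
    rw [he, sin_sub, cos_pi_div_three, sin_pi_div_three, cθ, sθ]; ring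
  have hc2' : c ^ 2 ≤ (2 / 3) ^ 2 := pow_le_pow_left₀ hc0.le hc2 2
  have hs1 : 0.745 ≤ s := by
    apply le_of_sq_le_sq _ hs0
    rw [hsc]; norm_num at hc2' ⊢; linarith
  have hs2 : s ≤ 1 := by
    apply le_of_sq_le_sq _ (by norm_num)
    rw [hsc]; have := sq_nonneg c; norm_num; linarith
  have hwc : w * c ≤ 1.73206 * (2 / 3) := mul_le_mul hw2 hc2 hc0.le (by norm_num)
  have hwc' : 1.73205 * 0.63185 ≤ w * c := mul_le_mul hw1 hc1 (by norm_num) (by linarith)
  have se2 : sin e ≤ 0.2049 := by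
    rw [se]; norm_num at hwc; linarith
  have se1 : 0 ≤ sin e := by
    rw [se]; norm_num at hwc'; linarith
  have e0 : 0 ≤ e := by
    by_contra h
    have := sin_neg_of_neg_of_neg_pi_lt (not_le.1 h) (by linarith)
    linarith
  have e1 : e ≤ 0.22 := by
    by_contra h
    have h1 := Real.sin_gt_sub_cube (x := 0.22) (by norm_num)
    have h2 : sin 0.22 ≤ sin e := by
      apply sin_le_sin_of_le_of_le_pi_div_two (by linarith) (by linarith) (by linarith)
    norm_num at h1 h2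
    linarith
  have ce0 : 0 ≤ cos e := cos_nonneg_of_mem_Icc ⟨by linarith, by linarith⟩
  have ce1 : 0.9785 ≤ cos e := by
    have h1 := sin_sq_add_cos_sq e
    have h2 : sin e ^ 2 ≤ 0.2049 ^ 2 := pow_le_pow_left₀ se1 se2 2
    apply le_of_sq_le_sq _ ce0
    norm_num at h2 ⊢
    linarith
  set k := 0.074 * r / c with hk
  have hk' : k = 0.037 / (1 + c) := by
    rw [hk, hcr']; field_simp; norm_num
  have hk1 : 0.0222 ≤ k := by rw [hk', le_div_iff₀ (by linarith)]; linarith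
  have hk2 : k ≤ 0.0227 := by rw [hk', div_le_iff₀ (by linarith)]; linarith
  set L := r ^ 2 * cos e + k * sin e with hL
  set M := k * cos e - r ^ 2 * sin e with hM
  have hr2' : r ^ 2 ≤ 0.04 := by
    have := pow_le_pow_left₀ hr.le hr2 2
    norm_num at this ⊢
    linarith
  have hk0 : 0 ≤ k := by linarith
  have hL0 : 0 ≤ L := add_nonneg (mul_nonneg (sq_nonneg r) ce0) (mul_nonneg hk0 se1)
  have hL1 : L ≤ 0.0447 := by
    have q1 : r ^ 2 * cos e ≤ 0.04 := by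
      have := mul_le_mul_of_nonneg_left (cos_le_one e) (sq_nonneg r)
      linarith
    have q2 : k * sin e ≤ 0.0227 * 0.2049 := mul_le_mul hk2 se2 se1 (by norm_num)
    rw [hL]; norm_num at q2; linarith
  have hM1 : 0.0135 ≤ M := by
    have q1 : 0.0222 * 0.9785 ≤ k * cos e := mul_le_mul hk1 ce1 (by norm_num) hk0
    have q2 : r ^ 2 * sin e ≤ 0.04 * 0.2049 := mul_le_mul hr2' se2 se1 (by norm_num)
    rw [hM]; norm_num at q1 q2; linarith
  -- one angle pair
  have one : ∀ γ η : ℝ, θ ≤ γ → γ < π / 2 → 0 ≤ η → η ≤ π - 3 * θ →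
      r ^ 2 * (s / c) - M + L * (γ + η - π / 3) ≤
        r ^ 2 * (tan γ + sin η) - 0.074 * (r / cos γ * cos η) := by
    intro γ η h1 h2 h3 h4
    have t1 := tan_convex hθ0 h1 h2
    have t2 := sec_tan hθ0 h1 h2
    have t3 := sec_mono hθ0 h1 h2
    rw [cθ, tθ] at t1
    rw [cθ, tθ] at t2
    rw [cθ] at t3
    have d1 := delta (M := M) (L := L) (δ := η - e) hM1 hL0 hL1 (by linarith)
    have hce : cos η ≤ 1 := cos_le_one η
    have s1 : sin η = sin e * cos (η - e) + cos e * sin (η - e) := by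
      rw [← sin_add]; congr 1; ring
    have s2 : cos η = cos e * cos (η - e) - sin e * sin (η - e) := by
      rw [← cos_add]; congr 1; ring
    have s3 : r ^ 2 * sin η - k * cos η = -M * cos (η - e) + L * sin (η - e) := by
      rw [s1, s2, hM, hL]; ring
    have s4 : -M + L * (η - e) ≤ r ^ 2 * sin η - k * cos η := by
      rw [s3]; linarith
    have u1 : (1 / cos γ - 1 / c) * cos η ≤ tan γ - s / c := by
      have := mul_le_mul_of_nonneg_left hce t3
      linarith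
    have u2 : (r ^ 2 - 0.074 * r) * (tan γ - s / c) ≤
        r ^ 2 * (tan γ - s / c) - 0.074 * r * ((1 / cos γ - 1 / c) * cos η) := by
      have := mul_le_mul_of_nonneg_left u1 (show 0 ≤ 0.074 * r by positivity)
      linarith
    have u3 : L * (γ - θ) ≤ (r ^ 2 - 0.074 * r) * (tan γ - s / c) := by
      have v1 : 0.0231 ≤ r ^ 2 - 0.074 * r := by
        have z1 : 0.1936 * 0.1196 ≤ r * (r - 0.074) :=
          mul_le_mul hr1 (by linarith) (by norm_num) hr.le
        norm_num at z1 ⊢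
        linarith
      have v2 : 0 ≤ (γ - θ) / c ^ 2 := div_nonneg (by linarith) (by positivity)
      have v3 : (γ - θ) * 2 ≤ (γ - θ) / c ^ 2 := by
        rw [le_div_iff₀ (by positivity)]
        have z1 : 2 * c ^ 2 ≤ 1 := by norm_num at hc2'; linarith
        have z2 := mul_le_mul_of_nonneg_left z1 (show 0 ≤ γ - θ by linarith)
        linarith
      have v4 : 0.0231 * ((γ - θ) / c ^ 2) ≤ (r ^ 2 - 0.074 * r) * (tan γ - s / c) :=
        mul_le_mul v1 t1 v2 (by linarith)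
      have v5 : L * (γ - θ) ≤ 0.0447 * (γ - θ) :=
        mul_le_mul_of_nonneg_right hL1 (by linarith)
      linarith
    have u4 : k = 0.074 * r * (1 / c) := by rw [hk]; ring
    have u5 : r / cos γ * cos η = r * ((1 / cos γ) * cos η) := by ring
    rw [u5]
    rw [u4] at s4
    have u6 : L * (γ + η - π / 3) = L * (γ - θ) + L * (η - e) := by rw [he]; ring
    rw [u6]
    linarith
  have h1 := one γ₁ η₁ g1 a1' b1 (by linarith)
  have h2 := one γ₂ η₂ g2 a2' b2 (by linarith)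
  have h3 := one γ₃ η₃ g3 a3' b3 (by linarith)
  have h4 : L * (γ₁ + η₁ - π / 3) + L * (γ₂ + η₂ - π / 3) + L * (γ₃ + η₃ - π / 3) = 0 := by
    have : γ₁ + η₁ - π / 3 + (γ₂ + η₂ - π / 3) + (γ₃ + η₃ - π / 3) = 0 := by linarith
    rw [← mul_add, ← mul_add, this, mul_zero]
  have h5 : 0.1566 ≤ 3 * (r ^ 2 * (s / c) - M) + 0.037 * (3 - 6 * r) := by
    have hp : 0 < 1 + c := by linarith
    have x1 : 3 * (r ^ 2 * (s / c) - M) + 0.037 * (3 - 6 * r) - 0.1566 =
        (s * (3 * c - 0.222 * w * (1 + c) - 1.5 * c ^ 2) + 1.5 * w * c ^ 3 -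
          (0.1824 * (1 + c) ^ 2 + 0.666 * c * (1 + c))) / (4 * (1 + c) ^ 2) := by
      rw [hM, ce, se, hk', hcr']
      field_simp
      ring
    have x2 : 0 ≤ (s * (3 * c - 0.222 * w * (1 + c) - 1.5 * c ^ 2) + 1.5 * w * c ^ 3 -
          (0.1824 * (1 + c) ^ 2 + 0.666 * c * (1 + c))) / (4 * (1 + c) ^ 2) :=
      div_nonneg (by linarith) (by positivity)
    linarith
  linarith

end Pool.Agent.V7H96.LB
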