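import Pool.Agent.V7H47.LB.Spec

/-!
# Lower bound for convex translation covers: the piece W3
-/

set_option autoImplicit false

open Real Set MeasureTheory

namespace Pool.Agent.V7H96.LB

open Pool.Agent.V7H47.TC (Plane IsClosedWorm IsTranslationCover)
open Pool.Agent.V7H47.LB

lemma D_add_pi (t : ℝ) (x : Plane) : D (t + π) x = -D t x := by
  unfold D
  rw [cos_add_pi, sin_add_pi]
  ring

lemma D_add_two_pi (t : ℝ) (x : Plane) : D (t + 2 * π) x = D t x := by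
  unfold D
  rw [cos_add_two_pi, sin_add_two_pi]

lemma comb_cos (A B M : ℝ) :
    sin (A + B) * cos M = sin A * cos (M - B) + sin B * cos (M + A) := by
  rw [sin_add, cos_sub, cos_add]
  ring

lemma comb_sin (A B M : ℝ) :
    sin (A + B) * sin M = sin A * sin (M - B) + sin B * sin (M + A) := by
  rw [sin_add, sin_sub, sin_add]
  ring

/-- `u(M)` between `u(p-γ)` and `u(p+γ)` -/
lemma D_comb (p γ M : ℝ) (x : Plane) :
    sin (2 * γ) * D M x = sin (p + γ - M) * D (p - γ) x + sin (M - (p - γ)) * D (p + γ) x := by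
  unfold D
  have h1 := comb_cos (p + γ - M) (M - (p - γ)) M
  have h2 := comb_sin (p + γ - M) (M - (p - γ)) M
  have e1 : p + γ - M + (M - (p - γ)) = 2 * γ := by ring
  have e2 : M - (M - (p - γ)) = p - γ := by ring
  have e3 : M + (p + γ - M) = p + γ := by ring
  rw [e1, e2, e3] at h1 h2
  linear_combination x 0 * h1 + x 1 * h2

lemma core {K : Set Plane} {r d p γ m n : ℝ} (hγ : 0 < γ) (hγ2 : γ < π / 2)
    (hd : d * cos γ = r) (hm : 0 ≤ m) (hn : 0 ≤ n)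
    (h1 : ∀ x ∈ K, D (p - γ) x ≤ r + m) (h2 : ∀ x ∈ K, D (p + γ) x ≤ r + n)
    {M : ℝ} (hM1 : p - γ ≤ M) (hM2 : M ≤ p + γ) {x : Plane} (hx : x ∈ K) :
    D M x ≤ d * cos (M - p) + (m + n) / sin (2 * γ) := by
  have hs : 0 < sin (2 * γ) := sin_pos_of_pos_of_lt_pi (by linarith) (by linarith)
  have hA : 0 ≤ sin (p + γ - M) := sin_nonneg_of_nonneg_of_le_pi (by linarith) (by linarith)
  have hB : 0 ≤ sin (M - (p - γ)) := sin_nonneg_of_nonneg_of_le_pi (by linarith) (by linarith)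
  have hc := D_comb p γ M x
  have q1 := mul_le_mul_of_nonneg_left (h1 x hx) hA
  have q2 := mul_le_mul_of_nonneg_left (h2 x hx) hB
  have q3 : sin (p + γ - M) * m ≤ m := by
    have := mul_le_mul_of_nonneg_right (sin_le_one (p + γ - M)) hm
    linarith
  have q4 : sin (M - (p - γ)) * n ≤ n := by
    have := mul_le_mul_of_nonneg_right (sin_le_one (M - (p - γ))) hn
    linarith
  have q5 : (sin (p + γ - M) + sin (M - (p - γ))) * r = sin (2 * γ) * (d * cos (M - p)) := by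
    have e1 : p + γ - M = γ - (M - p) := by ring
    have e2 : M - (p - γ) = γ + (M - p) := by ring
    rw [e1, e2, sin_sub, sin_add, sin_two_mul, ← hd]
    ring
  have q6 : sin (2 * γ) * D M x ≤ sin (2 * γ) * (d * cos (M - p)) + (m + n) := by
    rw [hc]
    nlinarith
  have q7 : D M x * sin (2 * γ) ≤ (d * cos (M - p) + (m + n) / sin (2 * γ)) * sin (2 * γ) := by
    rw [add_mul, div_mul_cancel₀ _ hs.ne']
    linarith
  exact le_of_mul_le_mul_right q7 hs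

lemma contact {K : Set Plane} (hW : Wide K) {r d p γ m n a b s t : ℝ} (hγ : 0 < γ)
    (hγ2 : γ < π / 2) (hr : 0 < r)
    (hd : d * cos γ = r) (hm : 0 ≤ m) (hn : 0 ≤ n)
    (h1 : ∀ x ∈ K, D (p - γ) x ≤ r + m) (h2 : ∀ x ∈ K, D (p + γ) x ≤ r + n)
    (ha : ∀ x ∈ K, D a x ≤ r + s) (hb : ∀ x ∈ K, D b x ≤ r + t)
    (a1 : p - γ ≤ a + π) (a2 : a + π ≤ p + γ) (b1 : p - γ ≤ b + π) (b2 : b + π ≤ p + γ)
    (hc : 0 ≤ cos ((b - a) / 2)) :
    1 ≤ 2 * r + s + t + 2 * (d * cos ((b - a) / 2)) + 2 / sin (2 * γ) * (m + n) := by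
  have hcg : 0 < cos γ := cos_pos_of_mem_Ioo ⟨by linarith, hγ2⟩
  have hd0 : 0 < d := by
    by_contra h
    have : d * cos γ ≤ 0 := mul_nonpos_of_nonpos_of_nonneg (not_lt.1 h) hcg.le
    linarith
  obtain ⟨x, hx, y, hy, hxy⟩ := hW a
  obtain ⟨x', hx', y', hy', hxy'⟩ := hW b
  have c1 := core hγ hγ2 hd hm hn h1 h2 a1 a2 hy
  have c2 := core hγ hγ2 hd hm hn h1 h2 b1 b2 hy'
  rw [D_add_pi] at c1 c2
  have c3 := ha x hx
  have c4 := hb x' hx'
  have c5 : cos (a + π - p) + cos (b + π - p) =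
      2 * cos ((a + b) / 2 + π - p) * cos ((b - a) / 2) := by
    have e1 : a + π - p = ((a + b) / 2 + π - p) - (b - a) / 2 := by ring
    have e2 : b + π - p = ((a + b) / 2 + π - p) + (b - a) / 2 := by ring
    rw [e1, e2, cos_sub, cos_add]
    ring
  have c6 : cos (a + π - p) + cos (b + π - p) ≤ 2 * cos ((b - a) / 2) := by
    rw [c5]
    have := mul_le_mul_of_nonneg_right (cos_le_one ((a + b) / 2 + π - p)) hc
    linarith
  have c7 := mul_le_mul_of_nonneg_left c6 hd0.le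
  have c8 : 2 / sin (2 * γ) * (m + n) = 2 * ((m + n) / sin (2 * γ)) := by ring
  rw [c8]
  linarith

theorem t_W3 : S_W3 := by
  intro K r d₁ d₂ d₃ p₁ p₂ p₃ γ₁ γ₂ γ₃ hW hr F1 F2 F3 g1 g2 g3 o1 o2 o3 m₁ n₁ m₂ n₂ m₃ n₃
    hm1 hn1 hm2 hn2 hm3 hn3 k1 l1 k2 l2 k3 l3
  obtain ⟨f1, f1', f1'', -⟩ := F1
  obtain ⟨f2, f2', f2'', -⟩ := F2
  obtain ⟨f3, f3', f3'', -⟩ := F3
  have hpi := pi_pos
  have k1' : ∀ x ∈ K, D (p₁ + 2 * π - γ₁) x ≤ r + m₁ := by
    intro x hx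
    have e : p₁ + 2 * π - γ₁ = p₁ - γ₁ + 2 * π := by ring
    rw [e, D_add_two_pi]
    exact k1 x hx
  have l1' : ∀ x ∈ K, D (p₁ + 2 * π + γ₁) x ≤ r + n₁ := by
    intro x hx
    have e : p₁ + 2 * π + γ₁ = p₁ + γ₁ + 2 * π := by ring
    rw [e, D_add_two_pi]
    exact l1 x hx
  have k2' : ∀ x ∈ K, D (p₂ + 2 * π - γ₂) x ≤ r + m₂ := by
    intro x hx
    have e : p₂ + 2 * π - γ₂ = p₂ - γ₂ + 2 * π := by ring
    rw [e, D_add_two_pi]
    exact k2 x hx
  have l2' : ∀ x ∈ K, D (p₂ + 2 * π + γ₂) x ≤ r + n₂ := by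
    intro x hx
    have e : p₂ + 2 * π + γ₂ = p₂ + γ₂ + 2 * π := by ring
    rw [e, D_add_two_pi]
    exact l2 x hx
  have cpos : ∀ z : ℝ, 0 ≤ z → z ≤ π / 2 → 0 ≤ cos z := fun z h1 h2 =>
    cos_nonneg_of_mem_Icc ⟨by linarith, h2⟩
  have A := contact hW f3 f3' hr f3'' hm3 hn3 k3 l3 l1 k2 (by linarith) (by linarith)
    (by linarith) (by linarith) (cpos ((p₂ - γ₂ - (p₁ + γ₁)) / 2) (by linarith) (by linarith))
  have B := contact hW f1 f1' hr f1'' hm1 hn1 k1' l1' l2 k3 (by linarith) (by linarith)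
    (by linarith) (by linarith) (cpos ((p₃ - γ₃ - (p₂ + γ₂)) / 2) (by linarith) (by linarith))
  have C := contact hW f2 f2' hr f2'' hm2 hn2 k2' l2' l3 k1' (by linarith) (by linarith)
    (by linarith) (by linarith)
    (cpos ((p₁ + 2 * π - γ₁ - (p₃ + γ₃)) / 2) (by linarith) (by linarith))
  unfold eta
  linarith

end Pool.Agent.V7H96.LB
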